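import Pool.Agent.Work.MP_fcfa67_h90.Diag
import Pool.Agent.Work.MP_fcfa67_h90.DiagDefs

/-!
# Manin's rational curve conjecture: equivalence of the general case with the special case of
smooth complete intersections of diagonal quadrics, without open subset
-/

open MvPolynomial
open Pool.Agent.Work.MP_fcfa67_h90

namespace Pool.Agent.Results.MP_fcfa67_nt.DiagonalQuadrics

/-- Let `k` be a number field. For every function `δ` the following are equivalent:
* Manin's statement (if there are many `k`-points then there is a nonconstant morphism over `k`
  from the projective line) holds for all smooth complete intersections `Y` of `r` diagonal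
  quadrics over `k` in projective `N`-space with `2 * r > N + 1` (the canonical class is ample)
  and `r ≥ δ (N - r)`, with `U = Y` (`T = {1}`);
* Manin's statement holds for all number fields `K` containing `k`, all closed subsets `X` of
  projective spaces over `K` (singular and reducible ones included) and all open subsets `U`
  of `X`. -/
theorem result (k : Type) [Field k] [NumberField k] (δ : ℕ → ℕ) :
    (∀ (N r : ℕ) (a : Matrix (Fin r) (Fin (N + 1)) k), N + 1 < 2 * r → δ (N - r) ≤ r →
        SmoothQuadrics a →
          ManyPoints (openPoints (quadrics a) {1}) → HasRationalCurve (quadrics a) {1}) ↔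
      ∀ (K : Type) [Field K] [NumberField K] [Algebra k K] (n : ℕ)
        (S T : Set (MvPolynomial (Fin (n + 1)) K)), (∀ F ∈ S, ∃ e, F.IsHomogeneous e) →
        (∀ G ∈ T, ∃ e, G.IsHomogeneous e) →
          ManyPoints (openPoints S T) → HasRationalCurve S T := by
  refine ⟨fun H => manin_diagonal k δ H, fun H N r a _ _ _ hm => ?_⟩
  refine H k N (quadrics a) {1} (diagonal_homogeneous a) (fun G hG => ?_) hm
  rw [Set.mem_singleton_iff.1 hG]
  exact ⟨0, isHomogeneous_one _ _⟩

end Pool.Agent.Results.MP_fcfa67_nt.DiagonalQuadrics
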