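import Pool.Agent.Work.MP_fcfa67_h90.Final

/-!
# Manin's rational curve conjecture: equivalence of the general case with the special case of
smooth hypersurfaces, without open subset
-/

open MvPolynomial
open Pool.Agent.Work.MP_fcfa67_h90

namespace Pool.Agent.Results.MP_fcfa67_nt.SmoothHypersurfaces

/-- Let `k` be a number field. For all `N₀` and `D₀` the following are equivalent:
* Manin's statement (if there are many `k`-points then there is a nonconstant morphism over `k`
  from the projective line) holds for all smooth hypersurfaces `Y : F = 0` over `k` in projective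
  spaces of dimension `n ≥ N₀`, of degree at least `D₀(n)`, whose rational curves over all
  extensions of `k` lie in the last coordinate hyperplane, with `U = Y` (`T = {1}`);
* Manin's statement holds for all number fields `K` containing `k`, all closed subsets `X` of
  projective spaces over `K` (singular and reducible ones included) and all open subsets `U`
  of `X`. -/
theorem result (k : Type) [Field k] [NumberField k] (N₀ : ℕ) (D₀ : ℕ → ℕ) :
    (∀ (n d : ℕ) (F : MvPolynomial (Fin (n + 1)) k), N₀ ≤ n → D₀ n ≤ d → F.IsHomogeneous d →
        Nonsingular F → CurvesAtLast F →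
          ManyPoints (openPoints {F} {1}) → HasRationalCurve {F} {1}) ↔
      ∀ (K : Type) [Field K] [NumberField K] [Algebra k K] (n : ℕ)
        (S T : Set (MvPolynomial (Fin (n + 1)) K)), (∀ F ∈ S, ∃ e, F.IsHomogeneous e) →
        (∀ G ∈ T, ∃ e, G.IsHomogeneous e) →
          ManyPoints (openPoints S T) → HasRationalCurve S T := by
  refine ⟨manin_reduction k N₀ D₀, fun H n d F _ _ hF _ _ hm => ?_⟩
  refine H k n {F} {1} (fun G hG => ?_) (fun G hG => ?_) hm
  · rw [Set.mem_singleton_iff.1 hG]
    exact ⟨d, hF⟩
  · rw [Set.mem_singleton_iff.1 hG]
    exact ⟨0, isHomogeneous_one _ _⟩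

end Pool.Agent.Results.MP_fcfa67_nt.SmoothHypersurfaces
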